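import Mathlib

set_option autoImplicit false

namespace Pool.Agent.H662Z

/-- the k-th iterate of the morphism applied to a letter -/
def it {A : Type} (σ : A → List A) (k : ℕ) (a : A) : List A :=
  (fun w : List A => w.flatMap σ)^[k] [a]

/-- two-sided growth of the form (k+1)^e * l^k -/
def Th (f : ℕ → ℝ) (e : ℕ) (l : ℝ) : Prop :=
  ∃ c1 c2 : ℝ, 0 < c1 ∧ ∀ k : ℕ,
    c1 * (((k : ℝ) + 1) ^ e * l ^ k) ≤ f k ∧ f k ≤ c2 * (((k : ℝ) + 1) ^ e * l ^ k)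

/-- F n = C1 log n + C2 log log n + O(1) -/
def Good (F : ℕ → ℝ) : Prop :=
  ∃ C1 C2 D : ℝ, ∀ n : ℕ, 3 ≤ n →
    |F n - (C1 * Real.log n + C2 * Real.log (Real.log n))| ≤ D

/-- the segment x a, ..., x (b-1) of a bi-infinite word -/
def seg {B : Type} (x : ℤ → B) (a b : ℤ) : List B :=
  (List.range (b - a).toNat).map (fun t : ℕ => x (a + t))

/-- x is the image of y under σ with cut function c -/
def Rep {A B : Type} (σ : A → List B) (y : ℤ → A) (x : ℤ → B) (c : ℤ → ℤ) : Prop :=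
  ∀ i, c i < c (i + 1) ∧ σ (y i) = seg x (c i) (c (i + 1))

/-- periodic bi-infinite word -/
def Per {B : Type} (x : ℤ → B) : Prop := ∃ q : ℤ, 0 < q ∧ ∀ t, x (t + q) = x t

/-- x lies in the orbit closure of z -/
def InX {A : Type} (z x : ℤ → A) : Prop :=
  ∀ R : ℤ, ∃ i : ℤ, ∀ t : ℤ, -R ≤ t → t ≤ R → x t = z (t + i)

/-- defect of p-periodicity at position t -/
def Df {A : Type} (p : ℤ) (x : ℤ → A) (t : ℤ) : Prop := x (t + p) ≠ x t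

/-- σ factors through a smaller alphabet -/
def NonElem {A B : Type} (σ : A → List B) : Prop :=
  ∃ (C : Type) (_ : Finite C) (α : C → List B) (β : A → List C),
    Nat.card C < Nat.card A ∧ (∀ b, α b ≠ []) ∧ ∀ a, σ a = (β a).flatMap α

/-- everywhere growing -/
def Grow {A : Type} (σ : A → List A) : Prop :=
  ∀ (a : A) (N : ℕ), ∃ k0 : ℕ, ∀ k, k0 ≤ k → N ≤ (it σ k a).length

/-- number of factors of length n of a one-sided word -/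
noncomputable def cx {A : Type} (u : ℕ → A) (n : ℕ) : ℕ :=
  (Set.range (fun i : ℕ => List.ofFn (fun j : Fin n => u (i + j.val)))).ncard

/-- the window [i+a, i+b) of z, as a function of the relative position -/
def win {A : Type} (z : ℤ → A) (a b i : ℤ) : ℤ → Option A :=
  fun t => if a ≤ t ∧ t < b then some (z (i + t)) else none

/-- number of different windows at the positions in P -/
noncomputable def cnt {A : Type} (z : ℤ → A) (P : Set ℤ) (a b : ℤ) : ℕ :=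
  (win z a b '' P).ncard

/-- mixed second difference of window counts -/
noncomputable def D2 {A : Type} (z : ℤ → A) (P : Set ℤ) (n : ℕ) : ℤ :=
  (cnt z P (-1) (n + 1) : ℤ) - cnt z P (-1) n - cnt z P 0 (n + 1) + cnt z P 0 n

/-- positions whose window of length n has a defect at distance at least K from both ends -/
def PI {A : Type} (z : ℤ → A) (p K : ℤ) (n : ℕ) : Set ℤ :=
  {i | ∃ t : ℤ, K ≤ t ∧ t + p + K < n ∧ Df p z (i + t)}

/-- recognisability package -/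
structure Sys {A : Type} (σ : A → List A) (z : ℤ → A) (c : ℤ → ℤ) (p : ℤ) : Prop where
  h2 : ∀ a, 2 ≤ (σ a).length
  rep : Rep σ z z c
  hp : 0 < p
  hF : ∀ x, InX z x → Per x → ∀ t, x (t + p) = x t
  hP : ∀ y x d, InX z y → Rep σ y x d → Per x → Per y
  hR : ∀ y y' x d d', InX z y → InX z y' → Rep σ y x d → Rep σ y' x d' → ¬ Per x →
    ∃ m : ℤ, ∀ i, y' i = y (i + m) ∧ d' i = d (i + m)

/-- finitary synchronisation, part A -/
structure SyncA {A : Type} (z : ℤ → A) (c : ℤ → ℤ) (p R : ℤ) : Prop where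
  s1 : ∀ a m : ℤ, (∀ e, a - R ≤ e → e < a → z (e + m) = z e) →
    (∀ s, c a ≤ s → s < c a + R → z (s + (c (a + m) - c a)) = z s) → z (a + m) = z a
  s2 : ∀ a m : ℤ, (∀ e, a ≤ e → e < a + R → z (e + m) = z e) →
    (∀ s, c a - R ≤ s → s < c a → z (s + (c (a + m) - c a)) = z s) → z (a - 1 + m) = z (a - 1)
  c2 : ∀ a, Df p z a → ∃ s, Df p z s ∧ c a - R ≤ s ∧ s ≤ c a + R
  c3 : ∀ a s, c a ≤ s → s < c (a + 1) → Df p z s → ∃ e, Df p z e ∧ a - R ≤ e ∧ e ≤ a + R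
  sfull : ∃ K0 : ℤ, ∀ lo hi δ t : ℤ, (∀ s, lo ≤ s → s < hi → z (s + δ) = z s) → Df p z t →
    lo + K0 ≤ t → t + K0 < hi → ∃ m : ℤ, ∀ e, lo + R ≤ c (e + 1) → c e + R ≤ hi →
      z (e + m) = z e ∧ c (e + m) = c e + δ ∧ c (e + 1 + m) = c (e + 1) + δ

/-- finitary synchronisation, part K -/
structure SyncK {A : Type} (z : ℤ → A) (p R : ℤ) : Prop where
  k0L : ∀ D, R ≤ D → ∃ L : ℤ, ∀ i δ : ℤ, (∀ s, i - D ≤ s → s < i + L → z (s + δ) = z s) →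
    Df p z (i - 1) → (∀ s, i ≤ s → s + p < i + L → ¬ Df p z s) →
    z (i - D - 1 + δ) = z (i - D - 1)
  k0R : ∀ D, R ≤ D → ∃ L : ℤ, ∀ i δ : ℤ, (∀ s, i - L ≤ s → s < i + D → z (s + δ) = z s) →
    Df p z (i - p) → (∀ s, i - L ≤ s → s + p < i → ¬ Df p z s) →
    z (i + D + δ) = z (i + D)

/-- everything the counting needs -/
structure Sync {A : Type} (σ : A → List A) (z : ℤ → A) (c : ℤ → ℤ) (p M R : ℤ) : Prop where
  h2 : ∀ a, 2 ≤ (σ a).length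
  hM : ∀ a, ((σ a).length : ℤ) ≤ M
  rep : Rep σ z z c
  hp : 0 < p
  hR : 1 ≤ R
  sa : SyncA z c p R
  sk : SyncK z p R

def GrowthStmt : Prop :=
  ∀ (A : Type) [Finite A] (σ : A → List A), (∀ a, 2 ≤ (σ a).length) → ∀ a,
    ∃ (e : ℕ) (l : ℝ), 1 < l ∧ Th (fun k => ((it σ k a).length : ℝ)) e l

def CountStmt : Prop :=
  ∀ (f : ℕ → ℕ) (e : ℕ) (l : ℝ), 1 < l → Th (fun k => (f k : ℝ)) e l →
    Good (fun n => (({k | f k < n}.ncard : ℕ) : ℝ))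

def CompareStmt : Prop :=
  ∀ (f g : ℕ → ℝ) (e e' : ℕ) (l l' : ℝ), 1 < l → 1 < l' → Th f e l → Th g e' l' →
    (∃ C : ℝ, ∀ k, f k ≤ C * g k) ∨
    ((∃ C : ℝ, ∀ k, g k ≤ C * f k) ∧ ∀ ε : ℝ, 0 < ε → ∃ N, ∀ k, N ≤ k → g k ≤ ε * f k)

def PansiotStmt : Prop :=
  ∀ (A : Type) [Finite A] (σ : A → List A), (∀ a, 2 ≤ (σ a).length) → ∀ (a : A) (u : ℕ → A),
    (∀ m i : ℕ, i < (it σ m a).length → (it σ m a)[i]? = some (u i)) →
    (∀ b, ∃ i, u i = b) →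
    (∃ b c, ¬ ∃ C : ℝ, ∀ k, ((it σ k b).length : ℝ) ≤ C * (it σ k c).length) →
    ∀ T : ℕ, ∃ n, 0 < n ∧ T * n ≤ cx u n

def RaysStmt : Prop :=
  ∀ (O : Type) [DecidableEq O] (len : O → ℕ) (hfin : ∀ n, {o | len o < n}.Finite) (Φ : O → O)
    (μ : O → ℤ) (N0 : ℕ), (∀ o, len o < len (Φ o)) →
    (∀ o, N0 ≤ len o → ∑ o' ∈ (hfin (len o)).toFinset with Φ o' = o, μ o' = μ o) →
    (∀ o, ∃ (e : ℕ) (l : ℝ), 1 < l ∧ Th (fun k => (len (Φ^[k] o) : ℝ)) e l) →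
    Good (fun n => ((∑ o ∈ (hfin n).toFinset, μ o : ℤ) : ℝ))

def RayStmt : Prop :=
  ∀ (A : Type) [Finite A] (σ : A → List A) (z : ℤ → A) (c : ℤ → ℤ),
    (∀ a, 2 ≤ (σ a).length) → Rep σ z z c → ∀ (G : ℤ) (i j : ℕ → ℤ), 0 ≤ G →
    (∀ k, |i (k + 1) - c (i k)| ≤ G) → (∀ k, |j (k + 1) - c (j k)| ≤ G) → i 0 + 2 * G < j 0 →
    ∃ (e : ℕ) (l : ℝ), 1 < l ∧ Th (fun k => ((j k - i k : ℤ) : ℝ)) e l

def ElemStmt : Prop :=
  ∀ (A B : Type) [Finite A] (σ : A → List B), (∀ a, σ a ≠ []) → ¬ NonElem σ →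
    ∀ (y y' : ℤ → A) (x : ℤ → B) (c c' : ℤ → ℤ), Rep σ y x c → Rep σ y' x c' → ¬ Per x →
    ∃ m : ℤ, ∀ i, y' i = y (i + m) ∧ c' i = c (i + m)

def FPStmt : Prop :=
  ∀ (A : Type) [Finite A] (σ : A → List A) (z : ℤ → A) (c : ℤ → ℤ), Grow σ → Rep σ z z c →
    (∃ p : ℤ, 0 < p ∧ ∀ x, InX z x → Per x → ∀ t, x (t + p) = x t) ∧
    ∀ y x d, InX z y → Rep σ y x d → Per x → Per y

def RStmt : Prop :=
  ∀ (A : Type) [Finite A] (σ : A → List A) (z : ℤ → A) (c : ℤ → ℤ), Grow σ → Rep σ z z c →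
    ∀ y y' x d d', InX z y → InX z y' → Rep σ y x d → Rep σ y' x d' → ¬ Per x →
    ∃ m : ℤ, ∀ i, y' i = y (i + m) ∧ d' i = d (i + m)

def SyncAStmt : Prop :=
  ∀ (A : Type) [Finite A] (σ : A → List A) (z : ℤ → A) (c : ℤ → ℤ) (p : ℤ), Sys σ z c p →
    ∃ R0 : ℤ, ∀ R, R0 ≤ R → SyncA z c p R

def SyncKStmt : Prop :=
  ∀ (A : Type) [Finite A] (σ : A → List A) (z : ℤ → A) (c : ℤ → ℤ) (p : ℤ), Sys σ z c p →
    ∃ R0 : ℤ, ∀ R, R0 ≤ R → SyncK z p R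

def ClassIStmt : Prop :=
  ∀ (A : Type) [Finite A] (σ : A → List A) (z : ℤ → A) (c : ℤ → ℤ) (p M R : ℤ),
    Sync σ z c p M R → ∃ K1 : ℤ, ∀ K, K1 ≤ K →
      Good (fun N => ((∑ n ∈ Finset.range N, D2 z (PI z p K n) n : ℤ) : ℝ))

def ClassIIStmt : Prop :=
  ∀ (A : Type) [Finite A] (σ : A → List A) (z : ℤ → A) (c : ℤ → ℤ) (p M R : ℤ),
    Sync σ z c p M R → ∃ K1 : ℤ, ∀ K, K1 ≤ K →
      Good (fun N => ((∑ n ∈ Finset.range N, D2 z (PI z p K n)ᶜ n : ℤ) : ℝ))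

def MainStmt : Prop :=
  ∀ (A : Type) [Finite A] (σ : A → List A) (z : ℤ → A) (c : ℤ → ℤ),
    (∀ a, 2 ≤ (σ a).length) → Rep σ z z c →
    Good (fun n => (cnt z Set.univ 0 (n + 1) : ℝ) - (cnt z Set.univ 0 n : ℝ))

end Pool.Agent.H662Z
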